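import Pool.Agent.F5S.Stmts

/-!
# F5S, row ADW: the weights `WP`, `WM` satisfy the conditions of `HardAt`
-/

set_option autoImplicit false

open MeasureTheory

namespace Pool.Agent.F5S.H86

open Pool.Agent.F5S

theorem pow_half {T del1 : ℝ} (hT : 1 ≤ T) : (T ^ (del1 / 2)) ^ 2 = T ^ del1 := by
  rw [← Real.rpow_natCast, ← Real.rpow_mul (by linarith)]
  congr 1
  push_cast
  ring

theorem pow_div {T del1 : ℝ} (hT : 1 ≤ T) : (T ^ (del1 / 2)) ^ 2 / T = T ^ (del1 - 1) := by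
  rw [pow_half hT, Real.rpow_sub_one (by linarith)]

theorem adw (adv : ADVStmt) (lpw : LPWStmt) : ADWStmt := by
  intro lam del1 T hlam hdel hT
  have hT0 : 0 < T := by linarith
  by_cases hb : big lam del1 T
  · have hP : WP lam del1 T = Wp T (T ^ lam) (T ^ (del1 / 2)) := by
      funext c
      unfold WP
      rw [if_pos hb]
    have hM : WM lam del1 T = Wm T (T ^ lam) (T ^ (del1 / 2)) := by
      funext c
      unfold WM
      rw [if_pos hb]
    obtain ⟨⟨c1, c2⟩, b1, b2, g1, g2, -, -⟩ :=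
      adv T (T ^ lam) (T ^ (del1 / 2)) hT (Real.rpow_pos_of_pos hT0 _) hb.2 hb.1
    obtain ⟨l1, l2⟩ :=
      lpw T (T ^ lam) (T ^ (del1 / 2)) hT (Real.rpow_pos_of_pos hT0 _) hb.2 hb.1
    rw [pow_half hT] at g1 g2
    rw [pow_div hT] at l1 l2
    rw [hP, hM]
    exact ⟨⟨c1.measurable, b1, fun c hc => (g1 c hc).1, l1⟩,
      ⟨c2.measurable, b2, fun c hc => (g2 c hc).1, l2⟩⟩
  · have hP : WP lam del1 T = fun _ => 0 := by
      funext c
      unfold WP
      rw [if_neg hb]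
    have hM : WM lam del1 T = fun _ => 0 := by
      funext c
      unfold WM
      rw [if_neg hb]
    rw [hP, hM]
    have h1 : Measurable (fun _ : R6 => (0 : ℝ)) ∧
        (∀ c : R6, 0 ≤ (fun _ : R6 => (0 : ℝ)) c ∧ (fun _ : R6 => (0 : ℝ)) c ≤ 1) ∧
        (∀ c : R6, (fun _ : R6 => (0 : ℝ)) c ≠ 0 → good T (T ^ del1) c) ∧
        (∀ c c' : R6, |(fun _ : R6 => (0 : ℝ)) c - (fun _ : R6 => (0 : ℝ)) c'| ≤
          T ^ (del1 - 1) * ‖c - c'‖) := by
      refine ⟨measurable_const, fun c => ⟨le_refl _, zero_le_one⟩, fun c hc => absurd rfl hc,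
        fun c c' => ?_⟩
      simp only [sub_zero, abs_zero]
      positivity
    exact ⟨h1, h1⟩

end Pool.Agent.F5S.H86
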