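import Pool.Agent.F5S.Stmts

/-!
# F5S, row GRD: counting the points of a grid in a window
-/

set_option autoImplicit false

namespace Pool.Agent.F5S.H86

open Pool.Agent.F5S

/-- the integers `n` with `u ≤ e n ≤ v` -/
noncomputable def seg (e u v : ℝ) : Finset ℤ := Finset.Icc ⌈u / e⌉ ⌊v / e⌋

theorem mem_seg {e u v : ℝ} (he : 0 < e) (n : ℤ) : n ∈ seg e u v ↔ u ≤ e * n ∧ e * n ≤ v := by
  unfold seg
  rw [Finset.mem_Icc, Int.ceil_le, Int.le_floor, div_le_iff₀ he, le_div_iff₀ he, mul_comm e]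

theorem card_seg_ge {e u v : ℝ} (he : 0 < e) : v - u - e ≤ e * ((seg e u v).card : ℝ) := by
  have h1 : (seg e u v).card = (⌊v / e⌋ + 1 - ⌈u / e⌉).toNat := Int.card_Icc _ _
  have h2 : (⌊v / e⌋ + 1 - ⌈u / e⌉ : ℤ) ≤ ((seg e u v).card : ℤ) := by
    rw [h1]
    exact Int.self_le_toNat _
  have h3 : ((⌊v / e⌋ + 1 - ⌈u / e⌉ : ℤ) : ℝ) ≤ ((seg e u v).card : ℝ) := by exact_mod_cast h2
  push_cast at h3
  have h4 := Int.sub_one_lt_floor (v / e)
  have h5 := Int.ceil_lt_add_one (u / e)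
  have h6 : v / e - u / e - 1 ≤ ((seg e u v).card : ℝ) := by linarith
  have h7 := mul_le_mul_of_nonneg_left h6 he.le
  have h8 : e * (v / e - u / e - 1) = v - u - e := by
    field_simp
  linarith

theorem card_seg_le {e u v : ℝ} (he : 0 < e) (huv : u ≤ v + e) :
    e * ((seg e u v).card : ℝ) ≤ v - u + e := by
  have h1 : (seg e u v).card = (⌊v / e⌋ + 1 - ⌈u / e⌉).toNat := Int.card_Icc _ _
  rcases le_total 0 (⌊v / e⌋ + 1 - ⌈u / e⌉) with h | h
  · have h2 : (((seg e u v).card : ℤ)) = ⌊v / e⌋ + 1 - ⌈u / e⌉ := by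
      rw [h1]
      exact Int.toNat_of_nonneg h
    have h3 : ((seg e u v).card : ℝ) = ((⌊v / e⌋ + 1 - ⌈u / e⌉ : ℤ) : ℝ) := by exact_mod_cast h2
    push_cast at h3
    have h4 := Int.floor_le (v / e)
    have h5 := Int.le_ceil (u / e)
    have h6 : ((seg e u v).card : ℝ) ≤ v / e - u / e + 1 := by linarith
    have h7 := mul_le_mul_of_nonneg_left h6 he.le
    have h8 : e * (v / e - u / e + 1) = v - u + e := by
      field_simp
    linarith
  · have h2 : (seg e u v).card = 0 := by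
      rw [h1]
      exact Int.toNat_eq_zero.2 h
    rw [h2, Nat.cast_zero, mul_zero]
    linarith

theorem grd : GRDStmt := by
  intro a b c d hab hcd
  refine ⟨5 * (b - a + (d - c)) + 26, by linarith, fun e he he1 => ?_⟩
  refine ⟨seg e (a + 2 * e) (b - 2 * e) ×ˢ seg e (c + 2 * e) (d - 2 * e),
    seg e (a - 2 * e) (b + 2 * e) ×ˢ seg e (c - 2 * e) (d + 2 * e), ?_, ?_, ?_, ?_⟩
  · intro g hg
    rw [Finset.mem_product, mem_seg he, mem_seg he] at hg
    exact ⟨hg.1.1, hg.1.2, hg.2.1, hg.2.2⟩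
  · intro g h1 h2 h3 h4
    rw [Finset.mem_product, mem_seg he, mem_seg he]
    exact ⟨⟨h1.le, h2.le⟩, h3.le, h4.le⟩
  · rw [Finset.card_product, Nat.cast_mul]
    have h1 := card_seg_ge (u := a + 2 * e) (v := b - 2 * e) he
    have h2 := card_seg_ge (u := c + 2 * e) (v := d - 2 * e) he
    obtain ⟨x, hx⟩ : ∃ x : ℝ, x = e * ((seg e (a + 2 * e) (b - 2 * e)).card : ℝ) := ⟨_, rfl⟩
    obtain ⟨y, hy⟩ : ∃ y : ℝ, y = e * ((seg e (c + 2 * e) (d - 2 * e)).card : ℝ) := ⟨_, rfl⟩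
    have hx0 : 0 ≤ x := by rw [hx]; positivity
    have hy0 : 0 ≤ y := by rw [hy]; positivity
    have hxy : e ^ 2 * (((seg e (a + 2 * e) (b - 2 * e)).card : ℝ) *
        ((seg e (c + 2 * e) (d - 2 * e)).card : ℝ)) = x * y := by
      rw [hx, hy]
      ring
    rw [hxy]
    rw [← hx] at h1
    rw [← hy] at h2
    have hxy0 : 0 ≤ x * y := mul_nonneg hx0 hy0
    have hba : 0 < b - a := by linarith
    have hdc : 0 < d - c := by linarith
    by_cases hP : b - a < 5 * e
    · have h3 : (b - a) * (d - c) ≤ 5 * e * (d - c) := mul_le_mul_of_nonneg_right hP.le hdc.le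
      have h4 : 0 ≤ e * (b - a) := by positivity
      nlinarith
    · by_cases hQ : d - c < 5 * e
      · have h3 : (b - a) * (d - c) ≤ (b - a) * (5 * e) := mul_le_mul_of_nonneg_left hQ.le hba.le
        have h4 : 0 ≤ e * (d - c) := by positivity
        nlinarith
      · push Not at hP hQ
        have h3 : (b - a - 5 * e) * (d - c - 5 * e) ≤ x * y :=
          mul_le_mul (by linarith) (by linarith) (by linarith) hx0
        nlinarith [sq_nonneg e]
  · rw [Finset.card_product, Nat.cast_mul]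
    have h1 := card_seg_le (u := a - 2 * e) (v := b + 2 * e) he (by linarith)
    have h2 := card_seg_le (u := c - 2 * e) (v := d + 2 * e) he (by linarith)
    obtain ⟨x, hx⟩ : ∃ x : ℝ, x = e * ((seg e (a - 2 * e) (b + 2 * e)).card : ℝ) := ⟨_, rfl⟩
    obtain ⟨y, hy⟩ : ∃ y : ℝ, y = e * ((seg e (c - 2 * e) (d + 2 * e)).card : ℝ) := ⟨_, rfl⟩
    have hx0 : 0 ≤ x := by rw [hx]; positivity
    have hy0 : 0 ≤ y := by rw [hy]; positivity
    have hxy : e ^ 2 * (((seg e (a - 2 * e) (b + 2 * e)).card : ℝ) *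
        ((seg e (c - 2 * e) (d + 2 * e)).card : ℝ)) = x * y := by
      rw [hx, hy]
      ring
    rw [hxy]
    rw [← hx] at h1
    rw [← hy] at h2
    have h3 : x * y ≤ (b - a + 5 * e) * (d - c + 5 * e) :=
      mul_le_mul (by linarith) (by linarith) hy0 (by linarith)
    have h4 : e ^ 2 ≤ e := by nlinarith
    nlinarith

end Pool.Agent.F5S.H86
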